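import Pool.Agent.W42.RG.Defs

/-!
Project LX, part LX-ONE: the functional vanishes on functions with vanishing conditional
expectation on the sets invariant under the expanding directions.
-/

set_option autoImplicit false
set_option linter.unusedSectionVars false
set_option linter.unusedVariables false

namespace Pool.Agent.W991.LX

open Finset Filter Topology MeasureTheory Pool.Agent.W42.RN Pool.Agent.W42.RL Pool.Agent.W42.RG

variable {X : Type} [MeasurableSpace X] {μ : Measure X} [IsProbabilityMeasure μ]
variable {P : ℤ → X → X} {N : ℕ} {U : Ultrafilter (Fin N → ℤ)}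

/-- the estimate by the mean of the norm of one of the functions -/
theorem norm_C_upd (hP : Act μ P) {f : Fin N → X → ℂ} (hf : ∀ i, Bd (f i)) {K : ℝ} (hK1 : 1 ≤ K)
    (hK : ∀ i p, ‖f i p‖ ≤ K) (j : Fin N) {v : X → ℂ} (hv : Bd v) (n : Fin N → ℤ) :
    ‖C μ P n (Function.update f j v)‖ ≤ K ^ N * ∫ p, ‖v p‖ ∂μ := by
  have h1 : ∫ p, ‖v p‖ ∂μ = ∫ p, ‖v (P (n j) p)‖ ∂μ :=
    (comp_int (hP.mp (n j)) (g := fun p => ‖v p‖) hv.meas.norm).symm
  rw [h1, ← integral_const_mul]
  unfold C
  refine (norm_integral_le_integral_norm _).trans ?_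
  have hvi : Bd fun p => v (P (n j) p) := hv.comp (hP.mp _).measurable
  refine integral_mono ?_ (hvi.int.norm.const_mul _) ?_
  · exact (Bd.tuple hP (Bd.update hf j hv) n univ).int.norm
  · intro p
    show ‖∏ i, Function.update f j v i (P (n i) p)‖ ≤ K ^ N * ‖v (P (n j) p)‖
    rw [prod_update f j v fun i => P (n i) p, norm_mul, norm_prod, mul_comm]
    refine mul_le_mul_of_nonneg_right ?_ (norm_nonneg _)
    calc ∏ i ∈ univ.erase j, ‖f i (P (n i) p)‖ ≤ ∏ _i ∈ univ.erase j, K :=
          prod_le_prod (fun _ _ => norm_nonneg _) (fun i _ => hK i _)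
      _ = K ^ (univ.erase j).card := by rw [prod_const]
      _ ≤ K ^ N := by
          refine pow_le_pow_right₀ hK1 ?_
          have := card_le_card (erase_subset j (univ : Finset (Fin N)))
          rwa [card_univ, Fintype.card_fin] at this

theorem norm_L_upd (hP : Act μ P) {f : Fin N → X → ℂ} (hf : ∀ i, Bd (f i)) {K : ℝ} (hK1 : 1 ≤ K)
    (hK : ∀ i p, ‖f i p‖ ≤ K) (j : Fin N) {v : X → ℂ} (hv : Bd v) :
    ‖L μ P U (Function.update f j v)‖ ≤ K ^ N * ∫ p, ‖v p‖ ∂μ :=
  le_of_tendsto (tendsto_L (Bd.update hf j hv)).norm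
    (Eventually.of_forall fun n => norm_C_upd hP hf hK1 hK j hv n)

theorem L_zero {f : Fin N → X → ℂ} (hf : ∀ i, Bd (f i)) (j : Fin N) :
    L μ P U (Function.update f j 0) = 0 := by
  have h := L_smul (μ := μ) (P := P) (U := U) hf j (Bd.const (X := X) 0) 0
  rwa [zero_smul, zero_mul] at h

theorem L_sub (hP : Act μ P) {f : Fin N → X → ℂ} (hf : ∀ i, Bd (f i)) (j : Fin N) {g h : X → ℂ}
    (hg : Bd g) (hh : Bd h) :
    L μ P U (Function.update f j (g - h))
      = L μ P U (Function.update f j g) - L μ P U (Function.update f j h) := by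
  have h1 := L_add (U := U) hP hf j hg (hh.smul (-1))
  rw [L_smul hf j hh (-1)] at h1
  have e : g - h = g + (-1 : ℂ) • h := by
    rw [neg_one_smul, sub_eq_add_neg]
  rw [e, h1]
  ring

theorem t_ONE (hCE : S_CE) (hDENS : S_DENS) (hCOB : S_COB) : S_ONE := by
  intro X mX 𝔤 _ _ _ _ _ _ _ μ _ E hE T hT A hTA N U hU
  have hP : Act μ (pw T) := act_pw hT
  have hmle : mK μ E (ctr A.symm) ≤ mX := mK_le μ E _
  -- the order of the times
  set r : Fin N → Fin N → Prop := fun i j => ∀ᶠ n in (U : Filter (Fin N → ℤ)), n j < n i with hr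
  have hirr : ∀ i, ¬ r i i := by
    intro i hi
    obtain ⟨n, hn⟩ := hi.exists
    exact lt_irrefl _ hn
  have htr : ∀ a b c, r a b → r b c → r a c := by
    intro a b c h1 h2
    filter_upwards [h1, h2] with n k1 k2
    exact k2.trans k1
  have hwf : WellFounded r := by
    have : IsTrans (Fin N) r := ⟨htr⟩
    have : Std.Irrefl r := ⟨hirr⟩
    exact Finite.wellFounded_of_trans_of_irrefl r
  suffices claim : ∀ j : Fin N, ∀ f : Fin N → X → ℂ, (∀ i, Bd (f i)) → ∀ u : X → ℂ, Bd u →
      (∀ B : Set X, MeasurableSet[mK μ E (ctr A.symm)] B → ∫ p in B, u p ∂μ = 0) →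
      L μ (pw T) U (Function.update f j u) = 0 by
    intro f hf j u hu hB
    exact claim j f hf u hu hB
  intro j
  induction j using hwf.induction with
  | _ j ih =>
  intro f hf u hu hB
  classical
  -- conditional expectations
  choose g hg hgB using fun i => hCE X (mK μ E (ctr A.symm)) μ hmle (f i) (hf i)
  have hgBd : ∀ i, Bd (g i) := fun i => ⟨(hg i).1.mono hmle le_rfl, (hg i).2⟩
  have step : ∀ s : Finset (Fin N), (∀ i ∈ s, r i j) →
      L μ (pw T) U (Function.update (fun i => if i ∈ s then g i else f i) j u)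
        = L μ (pw T) U (Function.update f j u) := by
    intro s
    induction s using Finset.induction_on with
    | empty => intro _; simp
    | insert a s ha ihs =>
      intro hs
      have haj : r a j := hs a (mem_insert_self a s)
      have hne : a ≠ j := by
        intro h
        rw [h] at haj
        exact hirr j haj
      rw [← ihs fun i hi => hs i (mem_insert_of_mem hi)]
      set F : Fin N → X → ℂ := Function.update (fun i => if i ∈ s then g i else f i) j u with hF
      have hFs : ∀ i, Bd ((fun i => if i ∈ s then g i else f i) i) := by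
        intro i
        simp only
        split_ifs
        · exact hgBd i
        · exact hf i
      have hFB : ∀ i, Bd (F i) := Bd.update hFs j hu
      have e1 : Function.update (fun i => if i ∈ insert a s then g i else f i) j u
          = Function.update F a (g a) := by
        funext i
        by_cases hij : i = j
        · subst hij
          rw [Function.update_self, Function.update_of_ne (Ne.symm hne), hF, Function.update_self]
        · rw [Function.update_of_ne hij]
          by_cases hia : i = a
          · subst hia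
            simp
          · rw [Function.update_of_ne hia, hF, Function.update_of_ne hij]
            simp [hia]
      have e2 : F = Function.update F a (f a) := by
        have : F a = f a := by
          rw [hF, Function.update_of_ne hne]
          simp [ha]
        rw [← this, Function.update_eq_self]
      have e3 : L μ (pw T) U (Function.update F a (f a - g a)) = 0 :=
        ih a haj F hFB (f a - g a) ((hf a).sub (hgBd a)) (fun B hBm => hgB a B hBm)
      rw [L_sub hP hFB a (hf a) (hgBd a), ← e2] at e3
      rw [e1]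
      exact (sub_eq_zero.1 e3).symm
  set s : Finset (Fin N) := univ.filter fun i => r i j with hs
  set f' : Fin N → X → ℂ := fun i => if i ∈ s then g i else f i with hf'
  have hf'B : ∀ i, Bd (f' i) := by
    intro i
    simp only [hf']
    split_ifs
    · exact hgBd i
    · exact hf i
  rw [← step s fun i hi => (mem_filter.1 hi).2]
  -- invariance at later times
  have hinv : ∀ i, (∀ᶠ n in (U : Filter (Fin N → ℤ)), n j < n i) →
      ∀ Z ∈ ctr A.symm, (fun p => f' i (E Z p)) =ᵐ[μ] f' i := by
    intro i hi Z hZ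
    have his : i ∈ s := mem_filter.2 ⟨mem_univ _, hi⟩
    have e : f' i = g i := by simp only [hf', if_pos his]
    rw [e]
    have hso : SameOn (mK μ E (ctr A.symm)) μ (E Z) id := fun B hBm => hBm.2 Z hZ
    exact sameOn_fn hso (hg i).1
  have cob := hCOB X 𝔤 μ E hE T hT A hTA N U hU j f' hf'B hinv
  obtain ⟨K, hK1, hK⟩ := Bd.common hf'B
  have hKN : 0 < K ^ N := by positivity
  have hspan : ∀ v ∈ Submodule.span ℂ {g : X → ℂ | ∃ (i : ctr A.symm) (h : X → ℂ), Bd h ∧
      g = fun p => h p - h (E i p)}, Bd v ∧ L μ (pw T) U (Function.update f' j v) = 0 := by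
    intro v hv
    induction hv using Submodule.span_induction with
    | mem x hx =>
      obtain ⟨Y, h, hh, rfl⟩ := hx
      have hh2 : Bd fun p => h (E Y p) := hh.comp (hE.mp _).measurable
      refine ⟨hh.sub hh2, ?_⟩
      have h1 := L_sub (U := U) hP hf'B j hh hh2
      have h2 := cob Y Y.2 h hh
      rw [h2, sub_self] at h1
      exact h1
    | zero => exact ⟨Bd.const 0, L_zero hf'B j⟩
    | add x y _ _ hx hy =>
      refine ⟨hx.1.add hy.1, ?_⟩
      rw [L_add hP hf'B j hx.1 hy.1, hx.2, hy.2, add_zero]
    | smul c x _ hx =>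
      refine ⟨hx.1.smul c, ?_⟩
      rw [L_smul hf'B j hx.1 c, hx.2, mul_zero]
  have key : ∀ ε : ℝ, 0 < ε → ‖L μ (pw T) U (Function.update f' j u)‖ ≤ K ^ N * ε := by
    intro ε hε
    obtain ⟨v, hv, hvB, hvε⟩ := hDENS X (ctr A.symm) μ (fun Y => E Y) (fun Y => hE.mp Y) u hu
      (fun B hBm hBi => hB B ⟨hBm, fun Y hY => hBi ⟨Y, hY⟩⟩) ε hε
    have hv0 := hspan v hv
    have e : u = (u - v) + v := by simp
    rw [e, L_add hP hf'B j (hu.sub hvB) hvB, hv0.2, add_zero]
    refine (norm_L_upd hP hf'B hK1 hK j (hu.sub hvB)).trans ?_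
    exact mul_le_mul_of_nonneg_left hvε hKN.le
  by_contra hne
  have hpos : 0 < ‖L μ (pw T) U (Function.update f' j u)‖ := norm_pos_iff.2 hne
  have h1 := key (‖L μ (pw T) U (Function.update f' j u)‖ / (2 * K ^ N)) (by positivity)
  have h2 : K ^ N * (‖L μ (pw T) U (Function.update f' j u)‖ / (2 * K ^ N))
      = ‖L μ (pw T) U (Function.update f' j u)‖ / 2 := by
    field_simp
  rw [h2] at h1
  linarith

end Pool.Agent.W991.LX
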